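import Mathlib
import Pool.Agent.H1.ShDefs
import Pool.Agent.H29.CPm

open Pool.Agent.H1.Sh Pool.Agent.H29.CPm Matrix
open scoped ComplexOrder

theorem Pool.Agent.Results.MP_1a2443_an.Mul.result (X : Type) (k l h : Matrix X X ℂ)
    (hk : k.PosSemidef) (hl : l.PosSemidef) (hh : h.PosSemidef)
    (k0 : ∀ x, k x x ≠ 0) (l0 : ∀ x, l x x ≠ 0) (h0 : ∀ x, h x x ≠ 0)
    (hcp : IsCP k l) : IsCP k (l ⊙ h) :=
  cp_of_cert hk (hl.hadamard hh) k0 (cert_mul hl hh l0 h0 (positive hk hl l0 hcp))
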